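import Mathlib
import Pool.Agent.P.MP_407208_co.Defs
import Pool.Agent.P.MP_407208_co.Main

set_option autoImplicit false

namespace Pool.Agent.Results.MP_407208_co.Counterexample

open Pool.Agent.P.MP_407208_co

theorem result : ∀ B : (Fin 4 × Fin 4) ≃ Fin (4 ^ 2),
    (∃ Bs, IsCornerSideSwap B Bs) ∧
    ∃ B' : (Fin 4 × Fin 4) ≃ Fin (4 ^ 2), (¬ ∀ k : ℕ, 2 ≤ k → words B k = words B' k) ∧
      ∀ Bs, IsCornerSideSwap B Bs →
        (words B 12 ∩ words Bs 12).ncard < (words B 12 ∩ words B' 12).ncard :=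
  Pool.Agent.P.MP_407208_co.main

end Pool.Agent.Results.MP_407208_co.Counterexample
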